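import Pool.Agent.Helper60.TW.Mv
import Pool.Agent.Helper65.TW.Basic

/-!
# TOWERS, T7b: small divisors, the literal statement
-/

set_option autoImplicit false

namespace Pool.Agent.Helper60.TW

open NumberField Pool.Agent.Helper4.CB MvPolynomial
open Pool.Agent.Helper69.CB
open Pool.Agent.Helper65.CL (Bad)
open Pool.Agent.Helper65.TW

/-- **T7b** small divisors -/
theorem su_affine {K M R : Type} [Field K] [Field M] [NumberField M] [Algebra K M] [CommRing R]
    [IsDomain R] [Algebra K R] {Λ : Finset ℕ} (hΛ : ∀ l ∈ Λ, l.Prime) {t : Ideal R}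
    (h : SUM K M R Λ t) {n s : ℕ} (a : MvPolynomial (Fin n) R)
    (hs : t ^ s ≤ Ideal.span (Set.range fun d => a.coeff d))
    (ha : ∀ P : MvPolynomial (Fin n) (FractionRing R), Irreducible P →
      P ∣ MvPolynomial.map (algebraMap R (FractionRing R)) a → TriDeg 3 P) (ha0 : a ≠ 0) :
    SUM K M (Localization.Away a) Λ (t.map (algebraMap R (Localization.Away a))) :=
  su_affine_of hΛ h (fun G τ hτ => SUM.strong hΛ h G τ 1 (by rw [pow_one, hτ])) a hs ha ha0

end Pool.Agent.Helper60.TW
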