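import Pool.Agent.Helper83.BR.Close
import Pool.Agent.Helper65.TW.Defs2

/-!
# TOWERS, T7b: small divisors. The sieve property passes to `R[x_1, .., x_n][1/a]`.
-/

set_option autoImplicit false

namespace Pool.Agent.Helper60.TW

open NumberField Pool.Agent.Helper4.CB MvPolynomial
open Pool.Agent.Helper69.CB Filter Pool.Agent.Helper83.Rel Pool.Agent.Helper83.BR
open Pool.Agent.Helper65.CL (Bad)
open Pool.Agent.Helper65.TW

/-- a relation `u = ∑ b c` with a unit `u` forces one of the `c` to be a unit -/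
theorem unit_content' {K : Type} [Field K] [NumberField K] {R : Type} [CommRing R]
    {φ : R →+* K} {p : Pl K} {S : Finset R} {b : R → R} {u : R} (hu : vl p (φ u) = 1)
    (h1 : ∑ c ∈ S, b c • c = u)
    (hb : ∀ c ∈ S, vl p (φ (b c)) ≤ 1) (hc : ∀ c ∈ S, vl p (φ c) ≤ 1) :
    ∃ c ∈ S, vl p (φ c) = 1 := by
  by_contra hcon
  push Not at hcon
  have h2 : vl p (φ (∑ c ∈ S, b c • c)) < 1 := by
    rw [map_sum]
    refine Valuation.map_sum_lt _ one_ne_zero fun c hcS => ?_
    rw [smul_eq_mul, map_mul, map_mul]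
    exact mul_lt_one_of_nonneg_of_lt_one_right (hb c hcS) zero_le
      (lt_of_le_of_ne (hc c hcS) (hcon c hcS))
  rw [h1, hu] at h2
  exact lt_irrefl _ h2

/-- **polynomial rings**: the `a q` are units at all bad places -/
theorem st_poly {K : Type} [Field K] {M : Type} [Field M] [NumberField M] [Algebra K M]
    {R : Type} [CommRing R] [IsDomain R] [Algebra K R] {Λ : Finset ℕ} (hΛ : ∀ l ∈ Λ, l.Prime)
    {τ : Finset R}
    (hR : ∀ G : Finset R, ∃ J0 : ℕ, ∀ J, J0 ≤ J → ∀ f : R, f ≠ 0 → ∃ φ : R →ₐ[K] M, φ f ≠ 0 ∧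
      ∀ p : Pl M, Bad Λ J p → (∀ g ∈ G, vl p (φ g) ≤ 1) ∧ ∃ x ∈ τ, vl p (φ x) = 1)
    (L : Type) [Field L] [Algebra R L] [IsFractionRing R L]
    {n : ℕ} {r : Type} [Fintype r] (a : r → MvPolynomial (Fin n) R) (ha0 : ∀ q, a q ≠ 0)
    (hun : ∀ q, ∀ x ∈ τ, ∃ s : ℕ, x ^ s ∈ Ideal.span (Set.range fun m => coeff m (a q)))
    (hP : ∀ q, ∀ P : MvPolynomial (Fin n) L, Irreducible P → P ∣ map (algebraMap R L) (a q) →
      TriDeg 3 P) (G : Finset (MvPolynomial (Fin n) R)) :
    ∃ J0 : ℕ, ∀ J, J0 ≤ J → ∀ f : MvPolynomial (Fin n) R, f ≠ 0 →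
      ∃ φ : MvPolynomial (Fin n) R →ₐ[K] M, φ f ≠ 0 ∧ (∀ q, φ (a q) ≠ 0) ∧
        ∀ p : Pl M, Bad Λ J p → (∀ q, vl p (φ (a q)) = 1) ∧
          (∀ g ∈ G, vl p (φ g) ≤ 1) ∧ ∃ x ∈ τ, vl p (φ (C x)) = 1 := by
  classical
  have hΛ2 : ∀ l ∈ Λ, 2 ≤ l := fun l hl => (hΛ l hl).two_le
  -- the coefficients and the relations
  let S : r → Finset R := fun q => (a q).support.image fun m => coeff m (a q)
  have hS : ∀ q, ∀ x : {x // x ∈ τ}, ∃ (s : ℕ) (b : R → R), ∑ c ∈ S q, b c • c = x.1 ^ s := by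
    intro q x
    obtain ⟨s, hs⟩ := hun q x.1 x.2
    have h2 : Ideal.span (Set.range fun m => coeff m (a q)) ≤
        Ideal.span ((S q : Finset R) : Set R) := by
      rw [Ideal.span_le]
      rintro _ ⟨m, rfl⟩
      by_cases hm : m ∈ (a q).support
      · exact Ideal.subset_span (Finset.mem_coe.2
          (Finset.mem_image_of_mem (fun m => coeff m (a q)) hm))
      · show coeff m (a q) ∈ _
        rw [notMem_support_iff.1 hm]
        exact Ideal.zero_mem _
    obtain ⟨b, -, hb⟩ := Submodule.mem_span_finset.1 (h2 hs)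
    exact ⟨s, b, hb⟩
  choose s b hb using hS
  let G0 : Finset R := (Finset.univ.biUnion fun q => S q ∪
    Finset.univ.biUnion fun x => (S q).image (b q x)) ∪
    G.biUnion fun g => g.support.image fun m => coeff m g
  have hG0S : ∀ q, ∀ c ∈ S q, c ∈ G0 := fun q c hc =>
    Finset.mem_union_left _ (Finset.mem_biUnion.2 ⟨q, Finset.mem_univ q,
      Finset.mem_union_left _ hc⟩)
  have hG0b : ∀ q x, ∀ c ∈ S q, b q x c ∈ G0 := fun q x c hc =>
    Finset.mem_union_left _ (Finset.mem_biUnion.2 ⟨q, Finset.mem_univ q,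
      Finset.mem_union_right _ (Finset.mem_biUnion.2 ⟨x, Finset.mem_univ x,
        Finset.mem_image_of_mem (b q x) hc⟩)⟩)
  obtain ⟨J2, hJ2⟩ := hR G0
  let Φ : ℕ → (R →+* M) → Prop := fun J φ =>
    (∀ k : K, φ (algebraMap K R k) = algebraMap K M k) ∧
    ∀ p : Pl M, Bad Λ J p → (∀ g ∈ G0, vl p (φ g) ≤ 1) ∧ ∃ x ∈ τ, vl p (φ x) = 1
  obtain ⟨J0, -, hJ0⟩ := harmless_core (K := M) hΛ2 L (dm := 3)
    (Pool.Agent.Helper65.CL.stepD_of_sieve M hΛ2 (Pool.Agent.Helper65.CL.sieveG_three _ hΛ M))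
    Φ (eventually_atTop.2 ⟨J2, fun J hJ f hf => by
      obtain ⟨φ, h1, h2⟩ := hJ2 J hJ f hf
      exact ⟨(φ : R →+* M), ⟨fun k => φ.commutes k, h2⟩, h1⟩⟩) a ha0
    (fun q => Eventually.of_forall fun J φ hφ p hp => by
      have hS0 : ∀ c ∈ S q, vl p (φ c) ≤ 1 := fun c hc => (hφ.2 p hp).1 c (hG0S q c hc)
      constructor
      · intro m
        by_cases hm : m ∈ (a q).support
        · exact hS0 _ (Finset.mem_image_of_mem (fun m => coeff m (a q)) hm)
        · rw [notMem_support_iff.1 hm, map_zero, map_zero]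
          exact zero_le_one
      · obtain ⟨x, hx, hl⟩ := (hφ.2 p hp).2
        obtain ⟨c, hc, h1⟩ := unit_content' (φ := φ) (p := p) (u := x ^ s q ⟨x, hx⟩)
          (by rw [map_pow, map_pow, hl, one_pow]) (hb q ⟨x, hx⟩)
          (fun c hc => (hφ.2 p hp).1 _ (hG0b q ⟨x, hx⟩ c hc)) hS0
        obtain ⟨m, _, rfl⟩ := Finset.mem_image.1 hc
        exact ⟨m, h1⟩)
    hP G
    (fun g hg m => Eventually.of_forall fun J φ hφ p hp => by
      by_cases hm : m ∈ g.support
      · exact (hφ.2 p hp).1 _ (Finset.mem_union_right _ (Finset.mem_biUnion.2 ⟨g, hg,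
          Finset.mem_image_of_mem (fun m => coeff m g) hm⟩))
      · rw [notMem_support_iff.1 hm, map_zero, map_zero]
        exact zero_le_one) 0
  refine ⟨J0, fun J hJ f hf => ?_⟩
  obtain ⟨φ, t, h1, h2, h3, h4⟩ := hJ0 f hf
  let φA : R →ₐ[K] M := { φ with commutes' := h1.1 }
  have hval : ∀ f : MvPolynomial (Fin n) R, aevalTower φA t f = eval t (map φ f) := by
    intro f
    induction f using MvPolynomial.induction_on with
    | C a => rw [aevalTower_C, map_C, eval_C]; rfl
    | add f g hf hg => rw [map_add, map_add, map_add, hf, hg]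
    | mul_X f i hf => rw [map_mul, map_mul, map_mul, hf, aevalTower_X, map_X, eval_X]
  refine ⟨aevalTower φA t, by rw [hval]; exact h2, fun q => by rw [hval]; exact (h3 q).1,
    fun p hp => ⟨fun q => by rw [hval]; exact (h3 q).2 p (bad_mono hJ hp), fun g hg => ?_, ?_⟩⟩
  · rw [hval]
    exact (h4 p (bad_mono hJ hp)).2 g hg
  · obtain ⟨x, hx, hl⟩ := (h1.2 p (bad_mono hJ hp)).2
    refine ⟨x, hx, ?_⟩
    rw [hval, map_C, eval_C]
    exact hl

/-- the conclusion of T7a for `τ` with span `t` -/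
def Strong (K : Type) [Field K] (M : Type) [Field M] [NumberField M] [Algebra K M]
    (R : Type) [CommRing R] [Algebra K R] (Λ : Finset ℕ) (t : Ideal R) : Prop :=
  ∀ (G τ : Finset R), Ideal.span (τ : Set R) = t →
    ∃ J0 : ℕ, ∀ J, J0 ≤ J → ∀ f : R, f ≠ 0 → ∃ φ : R →ₐ[K] M, φ f ≠ 0 ∧
      ∀ p : Pl M, Bad Λ J p → (∀ g ∈ G, vl p (φ g) ≤ 1) ∧ ∃ x ∈ τ, vl p (φ x) = 1

/-- **T7b** small divisors, over T7a -/
theorem su_affine_of {K M R : Type} [Field K] [Field M] [NumberField M] [Algebra K M] [CommRing R]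
    [IsDomain R] [Algebra K R] {Λ : Finset ℕ} (hΛ : ∀ l ∈ Λ, l.Prime) {t : Ideal R}
    (h : SUM K M R Λ t) (hstr : Strong K M R Λ t) {n s : ℕ} (a : MvPolynomial (Fin n) R)
    (hs : t ^ s ≤ Ideal.span (Set.range fun d => a.coeff d))
    (ha : ∀ P : MvPolynomial (Fin n) (FractionRing R), Irreducible P →
      P ∣ MvPolynomial.map (algebraMap R (FractionRing R)) a → TriDeg 3 P) (ha0 : a ≠ 0) :
    SUM K M (Localization.Away a) Λ (t.map (algebraMap R (Localization.Away a))) := by
  classical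
  obtain ⟨G, τ, -, hG, hτ, -⟩ := h
  let S := Localization.Away a
  let A := MvPolynomial (Fin n) R
  have hRS : ∀ x : R, algebraMap R S x = algebraMap A S (C x) := fun x => by
    rw [IsScalarTower.algebraMap_apply R A S]
    rfl
  let ia : S := IsLocalization.Away.invSelf a
  have hia : algebraMap A S a * ia = 1 := IsLocalization.Away.mul_invSelf a
  choose x hx using fun g : S => IsLocalization.Away.surj a g
  choose y hy using hx
  let G' : Finset S := (G.image (algebraMap R S) ∪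
    Finset.univ.image fun i : Fin n => algebraMap A S (X i)) ∪ {ia}
  let τ' : Finset S := τ.image (algebraMap R S)
  obtain ⟨J0, hJ0⟩ := st_poly hΛ (fun G => hstr G τ hτ) (FractionRing R)
    (fun _ : Unit => a) (fun _ => ha0)
    (fun _ z hz => ⟨s, hs (Ideal.pow_mem_pow (by rw [← hτ]; exact Ideal.subset_span hz) s)⟩)
    (fun _ => ha) (G'.image y)
  refine ⟨G', τ', J0, ?_, ?_, fun f hf => ?_⟩
  · -- generators
    have h1 : ∀ z : R, algebraMap R S z ∈ Algebra.adjoin K (G' : Set S) := by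
      intro z
      have h2 : z ∈ Algebra.adjoin K (G : Set R) := by rw [hG]; exact Algebra.mem_top
      have h3 : algebraMap R S z ∈ (Algebra.adjoin K (G : Set R)).map
          (IsScalarTower.toAlgHom K R S) := ⟨z, h2, rfl⟩
      rw [AlgHom.map_adjoin] at h3
      refine Algebra.adjoin_mono ?_ h3
      rintro _ ⟨w, hw, rfl⟩
      exact Finset.mem_coe.2 (Finset.mem_union_left _ (Finset.mem_union_left _
        (Finset.mem_image_of_mem (algebraMap R S) (Finset.mem_coe.1 hw))))
    have h2 : ∀ z : A, algebraMap A S z ∈ Algebra.adjoin K (G' : Set S) := by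
      intro z
      induction z using MvPolynomial.induction_on with
      | C a => rw [← hRS]; exact h1 a
      | add f g hf hg => rw [map_add]; exact add_mem hf hg
      | mul_X f i hf =>
        rw [map_mul]
        exact mul_mem hf (Algebra.subset_adjoin (Finset.mem_coe.2 (Finset.mem_union_left _
          (Finset.mem_union_right _ (Finset.mem_image_of_mem _ (Finset.mem_univ i))))))
    have h3 : ia ∈ Algebra.adjoin K (G' : Set S) :=
      Algebra.subset_adjoin (Finset.mem_coe.2 (Finset.mem_union_right _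
        (Finset.mem_singleton_self _)))
    rw [eq_top_iff]
    intro z _
    have h4 : z = algebraMap A S (y z) * ia ^ x z := by
      rw [← hy z, mul_assoc, ← mul_pow, hia, one_pow, mul_one]
    rw [h4]
    exact mul_mem (h2 _) (pow_mem h3 _)
  · -- the ideal
    rw [← hτ, Ideal.map_span, Finset.coe_image]
  · have hu : IsUnit (algebraMap A S a) := IsLocalization.Away.algebraMap_isUnit a
    have hy0 : y f ≠ 0 := by
      intro h0
      have h1 := hy f
      rw [h0, map_zero] at h1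
      exact hf ((hu.pow _).mul_left_eq_zero.1 h1)
    obtain ⟨φ, h1, h2, h3⟩ := hJ0 J0 le_rfl (y f) hy0
    have hφu : IsUnit (φ a) := isUnit_iff_ne_zero.2 (h2 ())
    let ψ : S →ₐ[K] M := IsLocalization.liftAlgHom (M := Submonoid.powers a) (f := φ)
      (by
        rintro ⟨_, k, rfl⟩
        rw [map_pow]
        exact hφu.pow k)
    have hψ : ∀ z : A, ψ (algebraMap A S z) = φ z := fun z => by
      simp only [ψ, IsLocalization.coe_liftAlgHom]
      exact IsLocalization.lift_eq _ z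
    have hψ2 : ∀ g : S, ψ g * φ a ^ x g = φ (y g) := fun g => by
      have h4 := congrArg ψ (hy g)
      rwa [map_mul, map_pow, hψ, hψ] at h4
    refine ⟨ψ, ?_, fun p hp => ⟨fun g hg => ?_, ?_⟩⟩
    · intro h0
      have h4 := hψ2 f
      rw [h0, zero_mul] at h4
      exact h1 h4.symm
    · have h4 := congrArg (vl p) (hψ2 g)
      rw [map_mul, map_pow, (h3 p hp).1 (), one_pow, mul_one] at h4
      rw [h4]
      exact (h3 p hp).2.1 _ (Finset.mem_image_of_mem y hg)
    · obtain ⟨z, hz, hl⟩ := (h3 p hp).2.2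
      refine ⟨algebraMap R S z, Finset.mem_image_of_mem _ hz, ?_⟩
      rw [hRS, hψ]
      exact hl

end Pool.Agent.Helper60.TW
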