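import Pool.Agent.Helper60.TW.Mv

/-!
# TOWERS, su_open: `A ^ n` with a closed subset which contains no fibre outside `V(t)` and whose
components of codimension one are small
-/

set_option autoImplicit false

namespace Pool.Agent.Helper60.TW

open NumberField Pool.Agent.Helper4.CB MvPolynomial
open Pool.Agent.Helper69.CB Filter Pool.Agent.Helper83.Rel Pool.Agent.Helper83.BR
open Pool.Agent.Helper65.CL (Bad)
open Pool.Agent.Helper65.TW

/-- the core for one family -/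
def Core (M : Type) [Field M] [NumberField M] (Λ : Finset ℕ) (R : Type) [CommRing R]
    (L : Type) [Field L] [Algebra R L] (n : ℕ) : Prop :=
  ∀ Φ : ℕ → (R →+* M) → Prop,
    (∀ᶠ J in atTop, ∀ f : R, f ≠ 0 → ∃ φ : R →+* M, Φ J φ ∧ φ f ≠ 0) →
    ∀ T : Finset (MvPolynomial (Fin n) R), (∃ f ∈ T, f ≠ 0) →
    (∀ᶠ J in atTop, ∀ φ, Φ J φ → ∀ p : Pl M, Bad Λ J p →
      (∀ f ∈ T, ∀ m, vl p (φ (coeff m f)) ≤ 1) ∧ ∃ f ∈ T, ∃ m, vl p (φ (coeff m f)) = 1) →
    (∀ P : MvPolynomial (Fin n) L, Irreducible P → (∀ f ∈ T, P ∣ map (algebraMap R L) f) →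
      TriDeg 3 P) →
    ∀ G : Finset (MvPolynomial (Fin n) R),
    (∀ g ∈ G, ∀ m, ∀ᶠ J in atTop, ∀ φ, Φ J φ → ∀ p : Pl M, Bad Λ J p →
      vl p (φ (coeff m g)) ≤ 1) →
    ∃ J : ℕ, ∀ f : MvPolynomial (Fin n) R, f ≠ 0 →
      ∃ (φ : R →+* M) (t : Fin n → M), Φ J φ ∧ eval t (map φ f) ≠ 0 ∧
        ∀ p : Pl M, Bad Λ J p → (∀ j, vl p (t j) ≤ 1) ∧
          (∃ f ∈ T, vl p (eval t (map φ f)) = 1) ∧ ∀ g ∈ G, vl p (eval t (map φ g)) ≤ 1

/-- the ideal of the coefficients of an ideal is generated by the coefficients of generators -/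
theorem coeffs_span {R : Type} [CommRing R] {n : ℕ} (T : Finset (MvPolynomial (Fin n) R)) :
    Ideal.span {c | ∃ a ∈ Ideal.span (T : Set (MvPolynomial (Fin n) R)), ∃ d, c = coeff d a} ≤
      Ideal.span {c | ∃ a ∈ T, ∃ d, c = coeff d a} := by
  classical
  rw [Ideal.span_le]
  rintro _ ⟨a, ha, d, rfl⟩
  obtain ⟨b, -, rfl⟩ := Submodule.mem_span_finset.1 ha
  show coeff d (∑ f ∈ T, b f • f) ∈ _
  rw [coeff_sum]
  refine Ideal.sum_mem _ fun f hf => ?_
  rw [smul_eq_mul, coeff_mul]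
  refine Ideal.sum_mem _ fun x _ => Ideal.mul_mem_left _ _ (Ideal.subset_span ⟨f, hf, _, rfl⟩)

/-- one family -/
theorem st_open {K : Type} [Field K] {M : Type} [Field M] [NumberField M] [Algebra K M]
    {R : Type} [CommRing R] [IsDomain R] [Algebra K R] {Λ : Finset ℕ}
    {τ : Finset R}
    (hR : ∀ G : Finset R, ∃ J0 : ℕ, ∀ J, J0 ≤ J → ∀ f : R, f ≠ 0 → ∃ φ : R →ₐ[K] M, φ f ≠ 0 ∧
      ∀ p : Pl M, Bad Λ J p → (∀ g ∈ G, vl p (φ g) ≤ 1) ∧ ∃ x ∈ τ, vl p (φ x) = 1)
    (L : Type) [Field L] [Algebra R L]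
    {n : ℕ} (hcore : Core M Λ R L n) (T : Finset (MvPolynomial (Fin n) R))
    (hT0 : ∃ f ∈ T, f ≠ 0)
    (hun : ∀ x ∈ τ, ∃ s : ℕ, x ^ s ∈ Ideal.span {c | ∃ a ∈ T, ∃ d, c = coeff d a})
    (hP : ∀ P : MvPolynomial (Fin n) L, Irreducible P → (∀ f ∈ T, P ∣ map (algebraMap R L) f) →
      TriDeg 3 P) (G : Finset (MvPolynomial (Fin n) R)) :
    ∃ J : ℕ, ∀ f : MvPolynomial (Fin n) R, f ≠ 0 →
      ∃ φ : MvPolynomial (Fin n) R →ₐ[K] M, φ f ≠ 0 ∧
        ∀ p : Pl M, Bad Λ J p → (∃ f ∈ T, vl p (φ f) = 1) ∧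
          (∀ g ∈ G, vl p (φ g) ≤ 1) ∧ ∃ x ∈ τ, vl p (φ (C x)) = 1 := by
  classical
  -- the coefficients and the relations
  let S : Finset R := T.biUnion fun f => f.support.image fun m => coeff m f
  have hSm : ∀ f ∈ T, ∀ m ∈ f.support, coeff m f ∈ S := fun f hf m hm =>
    Finset.mem_biUnion.2 ⟨f, hf, Finset.mem_image_of_mem (fun m => coeff m f) hm⟩
  have hS : ∀ x : {x // x ∈ τ}, ∃ (s : ℕ) (b : R → R), ∑ c ∈ S, b c • c = x.1 ^ s := by
    intro x
    obtain ⟨s, hs⟩ := hun x.1 x.2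
    have h2 : Ideal.span {c | ∃ a ∈ T, ∃ d, c = coeff d a} ≤
        Ideal.span ((S : Finset R) : Set R) := by
      rw [Ideal.span_le]
      rintro _ ⟨f, hf, m, rfl⟩
      by_cases hm : m ∈ f.support
      · exact Ideal.subset_span (Finset.mem_coe.2 (hSm f hf m hm))
      · show coeff m f ∈ _
        rw [notMem_support_iff.1 hm]
        exact Ideal.zero_mem _
    obtain ⟨b, -, hb⟩ := Submodule.mem_span_finset.1 (h2 hs)
    exact ⟨s, b, hb⟩
  choose s b hb using hS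
  let G0 : Finset R := (S ∪ Finset.univ.biUnion fun x => S.image (b x)) ∪
    G.biUnion fun g => g.support.image fun m => coeff m g
  have hG0S : ∀ c ∈ S, c ∈ G0 := fun c hc =>
    Finset.mem_union_left _ (Finset.mem_union_left _ hc)
  have hG0b : ∀ x, ∀ c ∈ S, b x c ∈ G0 := fun x c hc =>
    Finset.mem_union_left _ (Finset.mem_union_right _ (Finset.mem_biUnion.2 ⟨x,
      Finset.mem_univ x, Finset.mem_image_of_mem (b x) hc⟩))
  obtain ⟨J2, hJ2⟩ := hR G0
  let Φ : ℕ → (R →+* M) → Prop := fun J φ =>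
    (∀ k : K, φ (algebraMap K R k) = algebraMap K M k) ∧
    ∀ p : Pl M, Bad Λ J p → (∀ g ∈ G0, vl p (φ g) ≤ 1) ∧ ∃ x ∈ τ, vl p (φ x) = 1
  obtain ⟨J, hJ⟩ := hcore Φ (eventually_atTop.2 ⟨J2, fun J hJ f hf => by
      obtain ⟨φ, h1, h2⟩ := hJ2 J hJ f hf
      exact ⟨(φ : R →+* M), ⟨fun k => φ.commutes k, h2⟩, h1⟩⟩) T hT0
    (Eventually.of_forall fun J φ hφ p hp => by
      have hS0 : ∀ c ∈ S, vl p (φ c) ≤ 1 := fun c hc => (hφ.2 p hp).1 c (hG0S c hc)
      constructor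
      · intro f hf m
        by_cases hm : m ∈ f.support
        · exact hS0 _ (hSm f hf m hm)
        · rw [notMem_support_iff.1 hm, map_zero, map_zero]
          exact zero_le_one
      · obtain ⟨x, hx, hl⟩ := (hφ.2 p hp).2
        obtain ⟨c, hc, h1⟩ := unit_content' (φ := φ) (p := p) (u := x ^ s ⟨x, hx⟩)
          (by rw [map_pow, map_pow, hl, one_pow]) (hb ⟨x, hx⟩)
          (fun c hc => (hφ.2 p hp).1 _ (hG0b ⟨x, hx⟩ c hc)) hS0
        obtain ⟨f, hf, hc2⟩ := Finset.mem_biUnion.1 hc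
        obtain ⟨m, _, rfl⟩ := Finset.mem_image.1 hc2
        exact ⟨f, hf, m, h1⟩)
    hP G
    (fun g hg m => Eventually.of_forall fun J φ hφ p hp => by
      by_cases hm : m ∈ g.support
      · exact (hφ.2 p hp).1 _ (Finset.mem_union_right _ (Finset.mem_biUnion.2 ⟨g, hg,
          Finset.mem_image_of_mem (fun m => coeff m g) hm⟩))
      · rw [notMem_support_iff.1 hm, map_zero, map_zero]
        exact zero_le_one)
  refine ⟨J, fun f hf => ?_⟩
  obtain ⟨φ, t, h1, h2, h4⟩ := hJ f hf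
  let φA : R →ₐ[K] M := { φ with commutes' := h1.1 }
  have hval : ∀ f : MvPolynomial (Fin n) R, aevalTower φA t f = eval t (map φ f) := by
    intro f
    induction f using MvPolynomial.induction_on with
    | C a => rw [aevalTower_C, map_C, eval_C]; rfl
    | add f g hf hg => rw [map_add, map_add, map_add, hf, hg]
    | mul_X f i hf => rw [map_mul, map_mul, map_mul, hf, aevalTower_X, map_X, eval_X]
  refine ⟨aevalTower φA t, by rw [hval]; exact h2, fun p hp => ⟨?_, fun g hg => ?_, ?_⟩⟩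
  · obtain ⟨f, hf, h5⟩ := (h4 p hp).2.1
    exact ⟨f, hf, by rw [hval]; exact h5⟩
  · rw [hval]
    exact (h4 p hp).2.2 g hg
  · obtain ⟨x, hx, hl⟩ := (h1.2 p hp).2
    refine ⟨x, hx, ?_⟩
    rw [hval, map_C, eval_C]
    exact hl

/-- **su_open** over T7a and the core -/
theorem su_open_of {K M R : Type} [Field K] [Field M] [NumberField M] [Algebra K M] [CommRing R]
    [IsDomain R] [Algebra K R] [Algebra.FiniteType K R] {Λ : Finset ℕ} {t : Ideal R}
    (h : SUM K M R Λ t) (hstr : Strong K M R Λ t) {n s : ℕ}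
    (hcore : Core M Λ R (FractionRing R) n)
    (W : Ideal (MvPolynomial (Fin n) R))
    (hs : t ^ s ≤ Ideal.span {c | ∃ a ∈ W, ∃ d, c = MvPolynomial.coeff d a})
    (hP : ∀ P : MvPolynomial (Fin n) (FractionRing R), Irreducible P →
      (∀ a ∈ W, P ∣ MvPolynomial.map (algebraMap R (FractionRing R)) a) → TriDeg 3 P) :
    SUM K M (MvPolynomial (Fin n) R) Λ (t.map (MvPolynomial.C) * W) := by
  classical
  obtain ⟨G, τ, -, hG, hτ, -⟩ := h
  have hnoeth : IsNoetherianRing R := Algebra.FiniteType.isNoetherianRing K R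
  obtain ⟨T, hT⟩ := (inferInstance : IsNoetherianRing (MvPolynomial (Fin n) R)).noetherian W
  let G' : Finset (MvPolynomial (Fin n) R) := G.image C ∪ Finset.univ.image X
  let τ' : Finset (MvPolynomial (Fin n) R) := (τ ×ˢ T).image fun z => C z.1 * z.2
  have hgen : Algebra.adjoin K (G' : Set (MvPolynomial (Fin n) R)) = ⊤ := by
    have h1 : ∀ z : R, C z ∈ Algebra.adjoin K (G' : Set (MvPolynomial (Fin n) R)) := by
      intro z
      have h2 : z ∈ Algebra.adjoin K (G : Set R) := by rw [hG]; exact Algebra.mem_top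
      have h3 : C z ∈ (Algebra.adjoin K (G : Set R)).map
          (IsScalarTower.toAlgHom K R (MvPolynomial (Fin n) R)) := ⟨z, h2, rfl⟩
      rw [AlgHom.map_adjoin] at h3
      refine Algebra.adjoin_mono ?_ h3
      rintro _ ⟨w, hw, rfl⟩
      exact Finset.mem_coe.2 (Finset.mem_union_left _
        (Finset.mem_image_of_mem C (Finset.mem_coe.1 hw)))
    rw [eq_top_iff]
    intro z _
    induction z using MvPolynomial.induction_on with
    | C a => exact h1 a
    | add f g hf hg => exact add_mem (hf Algebra.mem_top) (hg Algebra.mem_top)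
    | mul_X f i hf =>
      exact mul_mem (hf Algebra.mem_top) (Algebra.subset_adjoin (Finset.mem_coe.2
        (Finset.mem_union_right _ (Finset.mem_image_of_mem _ (Finset.mem_univ i)))))
  have hspan : Ideal.span (τ' : Set (MvPolynomial (Fin n) R)) = t.map (MvPolynomial.C) * W := by
    have h1 : W = Ideal.span (T : Set (MvPolynomial (Fin n) R)) := hT.symm
    rw [h1, ← hτ, Ideal.map_span, Ideal.span_mul_span']
    congr 1
    ext z
    simp only [τ', Finset.coe_image, Finset.coe_product, Set.mem_image, Set.mem_prod,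
      Finset.mem_coe, Prod.exists, Set.mem_mul]
    constructor
    · rintro ⟨a, b, ⟨h1, h2⟩, rfl⟩
      exact ⟨C a, ⟨a, h1, rfl⟩, b, h2, rfl⟩
    · rintro ⟨_, ⟨a, h1, rfl⟩, b, h2, rfl⟩
      exact ⟨a, b, ⟨h1, h2⟩, rfl⟩
  by_cases hT0 : ∃ f ∈ T, f ≠ 0
  · obtain ⟨J, hJ⟩ := st_open (fun G => hstr G τ hτ) (FractionRing R) hcore T hT0
      (fun z hz => ⟨s, by
        have h1 : z ^ s ∈ t ^ s := Ideal.pow_mem_pow (by rw [← hτ]; exact Ideal.subset_span hz) s
        have h2 := hs h1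
        have h3 : W = Ideal.span (T : Set (MvPolynomial (Fin n) R)) := hT.symm
        rw [h3] at h2
        exact coeffs_span T h2⟩)
      (fun P hPi hd => hP P hPi (by
        intro a ha
        rw [← hT] at ha
        obtain ⟨b, -, rfl⟩ := Submodule.mem_span_finset.1 ha
        rw [map_sum]
        refine Finset.dvd_sum fun f hf => ?_
        rw [smul_eq_mul, map_mul]
        exact (hd f hf).mul_left _)) G'
    refine ⟨G', τ', J, hgen, hspan, fun f hf => ?_⟩
    obtain ⟨φ, h1, h2⟩ := hJ f hf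
    refine ⟨φ, h1, fun p hp => ?_⟩
    obtain ⟨⟨z, hz, h3⟩, h4, x, hx, h5⟩ := h2 p hp
    refine ⟨h4, C x * z, Finset.mem_image.2 ⟨(x, z), Finset.mem_product.2 ⟨hx, hz⟩, rfl⟩, ?_⟩
    rw [map_mul, map_mul, h3, h5, one_mul]
  · -- the degenerate case: there are no bad places
    push Not at hT0
    have hW : W = ⊥ := by
      rw [← hT]
      refine le_bot_iff.1 (Submodule.span_le.2 fun z hz => ?_)
      rw [hT0 z hz]
      exact Submodule.zero_mem _
    obtain ⟨J2, hJ2⟩ := hstr ∅ τ hτ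
    have hnb : ∀ J, J2 ≤ J → ∀ p : Pl M, ¬ Bad Λ J p := by
      intro J hJ p hp
      obtain ⟨φ, -, h2⟩ := hJ2 J hJ 1 one_ne_zero
      obtain ⟨-, x, hx, h3⟩ := h2 p hp
      have h4 : x ^ s ∈ t ^ s := Ideal.pow_mem_pow (by rw [← hτ]; exact Ideal.subset_span hx) s
      have h5 := hs h4
      have h6 : Ideal.span {c | ∃ a ∈ W, ∃ d, c = MvPolynomial.coeff d a} = ⊥ := by
        rw [Ideal.span_eq_bot]
        rintro _ ⟨a, ha, d, rfl⟩
        rw [hW, Ideal.mem_bot] at ha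
        rw [ha, coeff_zero]
      rw [h6, Ideal.mem_bot] at h5
      have h7 : x = 0 := by
        by_contra hx0
        exact pow_ne_zero s hx0 h5
      rw [h7, map_zero, map_zero] at h3
      exact zero_ne_one h3
    obtain ⟨J, hJ⟩ := st_open (τ := {(1 : R)}) (K := K) (M := M) (Λ := Λ) (R := R)
      (fun G => ⟨J2, fun J hJ f hf => by
        obtain ⟨φ, h1, -⟩ := hJ2 J hJ f hf
        exact ⟨φ, h1, fun p hp => absurd hp (hnb J hJ p)⟩⟩) (FractionRing R) hcore {1}
      ⟨1, Finset.mem_singleton_self _, one_ne_zero⟩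
      (fun z hz => ⟨0, Ideal.subset_span ⟨1, Finset.mem_singleton_self _, 0, by simp⟩⟩)
      (fun P hPi hd => by
        have h1 := hd 1 (Finset.mem_singleton_self _)
        rw [map_one] at h1
        exact absurd (isUnit_of_dvd_one h1) hPi.not_isUnit) G'
    refine ⟨G', τ', max J J2, hgen, hspan, fun f hf => ?_⟩
    obtain ⟨φ, h1, -⟩ := hJ f hf
    exact ⟨φ, h1, fun p hp => absurd hp (hnb _ (le_max_right _ _) p)⟩

end Pool.Agent.Helper60.TW
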