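import Pool.Agent.Helper60.TW.Open
import Pool.Agent.Helper65.TW.Basic
import Pool.Agent.Helper35.TW.CoreFam

/-!
# TOWERS, su_open: the literal statement
-/

set_option autoImplicit false

namespace Pool.Agent.Helper60.TW

open NumberField Pool.Agent.Helper4.CB MvPolynomial
open Pool.Agent.Helper69.CB Filter
open Pool.Agent.Helper65.CL (Bad)
open Pool.Agent.Helper65.TW

theorem core (M : Type) [Field M] [NumberField M] {Λ : Finset ℕ} (hΛ : ∀ l ∈ Λ, l.Prime)
    (R : Type) [CommRing R] [IsDomain R] (L : Type) [Field L] [Algebra R L] [IsFractionRing R L]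
    (n : ℕ) : Core M Λ R L n := by
  intro Φ hnr T hT0 hUT hP G hG
  have hΛ2 : ∀ l ∈ Λ, 2 ≤ l := fun l hl => (hΛ l hl).two_le
  obtain ⟨J, -, hJ⟩ := Pool.Agent.Helper35.TW.harmless_core_fam (K := M) hΛ2 L (dm := 3)
    (Pool.Agent.Helper65.CL.stepD_of_sieve M hΛ2 (Pool.Agent.Helper65.CL.sieveG_three _ hΛ M))
    Φ hnr T hT0 hUT hP G hG 0
  exact ⟨J, hJ⟩

/-- **su_open** -/
theorem su_open {K M R : Type} [Field K] [Field M] [NumberField M] [Algebra K M] [CommRing R]
    [IsDomain R] [Algebra K R] [Algebra.FiniteType K R] {Λ : Finset ℕ} (hΛ : ∀ l ∈ Λ, l.Prime)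
    {t : Ideal R} (h : SUM K M R Λ t) {n s : ℕ} (W : Ideal (MvPolynomial (Fin n) R))
    (hs : t ^ s ≤ Ideal.span {c | ∃ a ∈ W, ∃ d, c = MvPolynomial.coeff d a})
    (hP : ∀ P : MvPolynomial (Fin n) (FractionRing R), Irreducible P →
      (∀ a ∈ W, P ∣ MvPolynomial.map (algebraMap R (FractionRing R)) a) → TriDeg 3 P) :
    SUM K M (MvPolynomial (Fin n) R) Λ (t.map (MvPolynomial.C) * W) :=
  su_open_of h (fun G τ hτ => SUM.strong hΛ h G τ 1 (by rw [pow_one, hτ]))
    (core M hΛ R (FractionRing R) n) W hs hP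

end Pool.Agent.Helper60.TW
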